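import Pool.Agent.H310R3.Inh.Stmts

/-!
# The space of the cuts of a dense linear order (task `TaskCuts`)

The points of the space are the internal initial segments of `Q`. In the general part, the space is
a type `Y` with an internal injection `v` to the initial segments.
-/

set_option linter.all false

namespace Pool.Agent.H396R4.Inh

open FirstOrder FirstOrder.Language
open Pool.Agent.Helper672.ZFA
open Pool.Agent.H310 (FinP)
open Pool.Agent.H310R3.Inh (DLO ICH TaskCuts)

universe u

variable {M : Type u} [L.Structure M] [hM : IsModel M] {Q Y : Type u} [ITy M Q] [ITy M Y]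

/-- `U` contains the cuts between two points around `z`. -/
def Nb (v : Y → IPow M Q) (z : Y) (U : IPow M Y) : Prop :=
  ∃ p q, (p ∈ v z ∨ ∀ x, ¬ x ∈ v z) ∧ (¬ q ∈ v z ∨ ∀ x, x ∈ v z) ∧
    ∀ w, (p ∈ v w ∨ ∀ x, ¬ x ∈ v z) → (¬ q ∈ v w ∨ ∀ x, x ∈ v z) → w ∈ U

theorem int_op {v : Y → IPow M Q} (hv : IntF M v) :
    Int M (fun U : IPow M Y => ∀ z, z ∈ U → Nb v z U) := by
  unfold Nb
  (repeat' (first | with_reducible exact IntF.id | with_reducible exact IntF.fst' | with_reducible exact IntF.snd' | with_reducible exact IntF.const _ | with_reducible exact Int.const _ | assumption | with_reducible apply Int.and | with_reducible apply Int.or | with_reducible apply Int.not | with_reducible apply Int.imp | with_reducible apply Int.iff | with_reducible apply Int.ne | with_reducible apply Int.eq | with_reducible apply Int.mem | with_reducible apply Int.subset | with_reducible apply Int.ltN | with_reducible apply Int.leN | with_reducible_and_instances apply Int.le | with_reducible_and_instances apply Int.lt | with_reducible apply Int.all | with_reducible apply Int.ex | with_reducible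 apply IntF.fst | with_reducible apply IntF.snd | with_reducible apply IntF.app | with_reducible apply IntF.inl | with_reducible apply IntF.inr | with_reducible_and_instances apply IntF.mul | with_reducible_and_instances apply IntF.inv | with_reducible_and_instances apply IntF.add | with_reducible_and_instances apply IntF.sub | with_reducible_and_instances apply IntF.neg | with_reducible_and_instances apply IntF.smul | with_reducible apply Int.fin | with_reducible apply IntF.sep | with_reducible apply IntF.lam | with_reducible apply IntF.insert | with_reducible apply IntF.singleton | with_reducible apply IntF.union | with_reducible apply IntF.iimage | with_reducible apply IntF.ite | with_reducible apply IntF.the | with_reducible apply IntF.irec | with_reducible apply IntF.succ | with_reducible apply IntF.val | with_reducible apply IntF.mk | (with_reducible refine Int.comp ?_ ?_; assumption) | (with_reducible refine Int.comp₂ ?_ ?_ ?_; assumption) | (with_reducible refine Int.comp₃ ?_ ?_ ?_ ?_; assumption) | (with_reducible refine Int.comp₄ ?_ ?_ ?_ ?_ ?_; assumption) | (with_reducible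 refine IntF.comp ?_ ?_; assumption) | (with_reducible refine IntF.comp₂ ?_ ?_ ?_; assumption) | (with_reducible refine IntF.comp₃ ?_ ?_ ?_ ?_; assumption) | with_reducible apply IntF.pair))

/-- The open sets. -/
noncomputable def OpS (v : Y → IPow M Q) : IPow M (IPow M Y) :=
  sep M fun U => ∀ z, z ∈ U → Nb v z U

theorem mem_OpS {v : Y → IPow M Q} (hv : IntF M v) {U : IPow M Y} :
    U ∈ OpS v ↔ ∀ z, z ∈ U → Nb v z U := by
  unfold OpS
  rw [mem_sep (int_op hv)]

theorem Nb.mono {v : Y → IPow M Q} {z : Y} {U U' : IPow M Y} (h : Nb v z U)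
    (hU : ∀ w, w ∈ U → w ∈ U') : Nb v z U' := by
  obtain ⟨p, q, h1, h2, h3⟩ := h
  exact ⟨p, q, h1, h2, fun w hp hq => hU w (h3 w hp hq)⟩

section

variable {lt : Q → Q → Prop} (D : DLO M Q lt) {v : Y → IPow M Q} (hv : IntF M v)
  (vini : ∀ z x y, y ∈ v z → lt x y → x ∈ v z)

include D vini

theorem two_lo (z : Y) {p p' : Q} (h : p ∈ v z ∨ ∀ x, ¬ x ∈ v z)
    (h' : p' ∈ v z ∨ ∀ x, ¬ x ∈ v z) : ∃ r, (r ∈ v z ∨ ∀ x, ¬ x ∈ v z) ∧
      ∀ w, (r ∈ v w ∨ ∀ x, ¬ x ∈ v z) →
        (p ∈ v w ∨ ∀ x, ¬ x ∈ v z) ∧ (p' ∈ v w ∨ ∀ x, ¬ x ∈ v z) := by
  by_cases hE : ∀ x, ¬ x ∈ v z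
  · exact ⟨p, Or.inr hE, fun w _ => ⟨Or.inr hE, Or.inr hE⟩⟩
  · have h1 := h.resolve_right hE
    have h1' := h'.resolve_right hE
    rcases D.total p p' with h2 | h2 | h2
    · exact ⟨p', h', fun w hw => ⟨Or.inl (vini w p p' (hw.resolve_right hE) h2), hw⟩⟩
    · subst h2
      exact ⟨p, h, fun w hw => ⟨hw, hw⟩⟩
    · exact ⟨p, h, fun w hw => ⟨hw, Or.inl (vini w p' p (hw.resolve_right hE) h2)⟩⟩

theorem two_hi (z : Y) {q q' : Q} (h : ¬ q ∈ v z ∨ ∀ x, x ∈ v z)
    (h' : ¬ q' ∈ v z ∨ ∀ x, x ∈ v z) : ∃ r, (¬ r ∈ v z ∨ ∀ x, x ∈ v z) ∧
      ∀ w, (¬ r ∈ v w ∨ ∀ x, x ∈ v z) →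
        (¬ q ∈ v w ∨ ∀ x, x ∈ v z) ∧ (¬ q' ∈ v w ∨ ∀ x, x ∈ v z) := by
  by_cases hE : ∀ x, x ∈ v z
  · exact ⟨q, Or.inr hE, fun w _ => ⟨Or.inr hE, Or.inr hE⟩⟩
  · have h1 := h.resolve_right hE
    have h1' := h'.resolve_right hE
    rcases D.total q q' with h2 | h2 | h2
    · exact ⟨q, h, fun w hw => ⟨hw, Or.inl fun h3 => (hw.resolve_right hE) (vini w q q' h3 h2)⟩⟩
    · subst h2
      exact ⟨q, h, fun w hw => ⟨hw, hw⟩⟩
    · exact ⟨q', h', fun w hw =>
        ⟨Or.inl fun h3 => (hw.resolve_right hE) (vini w q' q h3 h2), hw⟩⟩

theorem Nb.inter {z : Y} {U U' : IPow M Y} (h : Nb v z U) (h' : Nb v z U') :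
    Nb v z (U ∩ U') := by
  obtain ⟨p, q, h1, h2, h3⟩ := h
  obtain ⟨p', q', h1', h2', h3'⟩ := h'
  obtain ⟨r, hr, hr'⟩ := two_lo D vini z h1 h1'
  obtain ⟨s, hs, hs'⟩ := two_hi D vini z h2 h2'
  refine ⟨r, s, hr, hs, fun w hp hq => ?_⟩
  rw [mem_inter]
  exact ⟨h3 w (hr' w hp).1 (hs' w hq).1, h3' w (hr' w hp).2 (hs' w hq).2⟩

omit vini in
theorem exists_lo (z : Y) : ∃ p, (p ∈ v z ∨ ∀ x, ¬ x ∈ v z) := by
  by_cases h : ∃ p, p ∈ v z
  · obtain ⟨p, hp⟩ := h
    exact ⟨p, Or.inl hp⟩
  · obtain ⟨p⟩ := D.ne
    exact ⟨p, Or.inr fun x hx => h ⟨x, hx⟩⟩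

omit vini in
theorem exists_hi (z : Y) : ∃ q, (¬ q ∈ v z ∨ ∀ x, x ∈ v z) := by
  by_cases h : ∃ q, ¬ q ∈ v z
  · obtain ⟨q, hq⟩ := h
    exact ⟨q, Or.inl hq⟩
  · obtain ⟨q⟩ := D.ne
    exact ⟨q, Or.inr fun x => by_contra fun hx => h ⟨x, hx⟩⟩

omit vini in
theorem Nb.univ (z : Y) : Nb v z (iuniv M Y) := by
  obtain ⟨p, hp⟩ := exists_lo D (v := v) z
  obtain ⟨q, hq⟩ := exists_hi D (v := v) z
  exact ⟨p, q, hp, hq, fun w _ _ => mem_iuniv.2 trivial⟩

include hv

omit vini in
/-- The cuts above `q` are open. -/
theorem exists_R (q : Q) : ∃ U, U ∈ OpS v ∧ ∀ w, w ∈ U ↔ q ∈ v w := by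
  have hi : Int M (fun w => q ∈ v w) := by (repeat' (first | with_reducible exact IntF.id | with_reducible exact IntF.fst' | with_reducible exact IntF.snd' | with_reducible exact IntF.const _ | with_reducible exact Int.const _ | assumption | with_reducible apply Int.and | with_reducible apply Int.or | with_reducible apply Int.not | with_reducible apply Int.imp | with_reducible apply Int.iff | with_reducible apply Int.ne | with_reducible apply Int.eq | with_reducible apply Int.mem | with_reducible apply Int.subset | with_reducible apply Int.ltN | with_reducible apply Int.leN | with_reducible_and_instances apply Int.le | with_reducible_and_instances apply Int.lt | with_reducible apply Int.all | with_reducible apply Int.ex | with_reducible apply IntF.fst | with_reducible apply IntF.snd | with_reducible apply IntF.app | with_reducible apply IntF.inl | with_reducible apply IntF.inr | with_reducible_and_instances apply IntF.mul | with_reducible_and_instances apply IntF.inv | with_reducible_and_instances apply IntF.add | with_reducible_and_instances apply IntF.sub | with_reducible_and_instances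 apply IntF.neg | with_reducible_and_instances apply IntF.smul | with_reducible apply Int.fin | with_reducible apply IntF.sep | with_reducible apply IntF.lam | with_reducible apply IntF.insert | with_reducible apply IntF.singleton | with_reducible apply IntF.union | with_reducible apply IntF.iimage | with_reducible apply IntF.ite | with_reducible apply IntF.the | with_reducible apply IntF.irec | with_reducible apply IntF.succ | with_reducible apply IntF.val | with_reducible apply IntF.mk | (with_reducible refine Int.comp ?_ ?_; assumption) | (with_reducible refine Int.comp₂ ?_ ?_ ?_; assumption) | (with_reducible refine Int.comp₃ ?_ ?_ ?_ ?_; assumption) | (with_reducible refine Int.comp₄ ?_ ?_ ?_ ?_ ?_; assumption) | (with_reducible refine IntF.comp ?_ ?_; assumption) | (with_reducible refine IntF.comp₂ ?_ ?_ ?_; assumption) | (with_reducible refine IntF.comp₃ ?_ ?_ ?_ ?_; assumption) | with_reducible apply IntF.pair))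
  refine ⟨sep M fun w => q ∈ v w, (mem_OpS hv).2 fun z hz => ?_, fun w => mem_sep hi⟩
  rw [mem_sep hi] at hz
  obtain ⟨s, hs⟩ := exists_hi D (v := v) z
  refine ⟨q, s, Or.inl hz, hs, fun w hp _ => (mem_sep hi).2 ?_⟩
  exact hp.resolve_right fun h => h q hz

omit vini in
/-- The cuts below `q` are open. -/
theorem exists_L (q : Q) : ∃ U, U ∈ OpS v ∧ ∀ w, w ∈ U ↔ ¬ q ∈ v w := by
  have hi : Int M (fun w => ¬ q ∈ v w) := by (repeat' (first | with_reducible exact IntF.id | with_reducible exact IntF.fst' | with_reducible exact IntF.snd' | with_reducible exact IntF.const _ | with_reducible exact Int.const _ | assumption | with_reducible apply Int.and | with_reducible apply Int.or | with_reducible apply Int.not | with_reducible apply Int.imp | with_reducible apply Int.iff | with_reducible apply Int.ne | with_reducible apply Int.eq | with_reducible apply Int.mem | with_reducible apply Int.subset | with_reducible apply Int.ltN | with_reducible apply Int.leN | with_reducible_and_instances apply Int.le | with_reducible_and_instances apply Int.lt | with_reducible apply Int.all | with_reducible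 apply Int.ex | with_reducible apply IntF.fst | with_reducible apply IntF.snd | with_reducible apply IntF.app | with_reducible apply IntF.inl | with_reducible apply IntF.inr | with_reducible_and_instances apply IntF.mul | with_reducible_and_instances apply IntF.inv | with_reducible_and_instances apply IntF.add | with_reducible_and_instances apply IntF.sub | with_reducible_and_instances apply IntF.neg | with_reducible_and_instances apply IntF.smul | with_reducible apply Int.fin | with_reducible apply IntF.sep | with_reducible apply IntF.lam | with_reducible apply IntF.insert | with_reducible apply IntF.singleton | with_reducible apply IntF.union | with_reducible apply IntF.iimage | with_reducible apply IntF.ite | with_reducible apply IntF.the | with_reducible apply IntF.irec | with_reducible apply IntF.succ | with_reducible apply IntF.val | with_reducible apply IntF.mk | (with_reducible refine Int.comp ?_ ?_; assumption) | (with_reducible refine Int.comp₂ ?_ ?_ ?_; assumption) | (with_reducible refine Int.comp₃ ?_ ?_ ?_ ?_; assumption) | (with_reducible refine Int.comp₄ ?_ ?_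 ?_ ?_ ?_; assumption) | (with_reducible refine IntF.comp ?_ ?_; assumption) | (with_reducible refine IntF.comp₂ ?_ ?_ ?_; assumption) | (with_reducible refine IntF.comp₃ ?_ ?_ ?_ ?_; assumption) | with_reducible apply IntF.pair))
  refine ⟨sep M fun w => ¬ q ∈ v w, (mem_OpS hv).2 fun z hz => ?_, fun w => mem_sep hi⟩
  rw [mem_sep hi] at hz
  obtain ⟨s, hs⟩ := exists_lo D (v := v) z
  refine ⟨s, q, hs, Or.inl hz, fun w _ hq => (mem_sep hi).2 ?_⟩
  exact hq.resolve_right fun h => hz (h q)

theorem compact (vsurj : ∀ C : IPow M Q, (∀ x y, y ∈ C → lt x y → x ∈ C) → ∃ z, v z = C)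
    (G : IPow M (IPow M Y)) (hG : ∀ U, U ∈ G → U ∈ OpS v) (hcov : ∀ z, ∃ U, U ∈ G ∧ z ∈ U) :
    ∃ H : IPow M (IPow M Y), IFin H ∧ (∀ U, U ∈ H → U ∈ G) ∧ ∀ z, ∃ U, U ∈ H ∧ z ∈ U := by
  have hi : Int M (fun q : Q => ∃ H : IPow M (IPow M Y), IFin H ∧ (∀ U, U ∈ H → U ∈ G) ∧
      ∀ w, ¬ q ∈ v w → ∃ U, U ∈ H ∧ w ∈ U) := by (repeat' (first | with_reducible exact IntF.id | with_reducible exact IntF.fst' | with_reducible exact IntF.snd' | with_reducible exact IntF.const _ | with_reducible exact Int.const _ | assumption | with_reducible apply Int.and | with_reducible apply Int.or | with_reducible apply Int.not | with_reducible apply Int.imp | with_reducible apply Int.iff | with_reducible apply Int.ne | with_reducible apply Int.eq | with_reducible apply Int.mem | with_reducible apply Int.subset | with_reducible apply Int.ltN | with_reducible apply Int.leN | with_reducible_and_instances apply Int.le | with_reducible_and_instances apply Int.lt | with_reducible apply Int.all | with_reducible apply Int.ex | with_reducible apply IntF.fst | with_reducible apply IntF.snd | with_reducible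 apply IntF.app | with_reducible apply IntF.inl | with_reducible apply IntF.inr | with_reducible_and_instances apply IntF.mul | with_reducible_and_instances apply IntF.inv | with_reducible_and_instances apply IntF.add | with_reducible_and_instances apply IntF.sub | with_reducible_and_instances apply IntF.neg | with_reducible_and_instances apply IntF.smul | with_reducible apply Int.fin | with_reducible apply IntF.sep | with_reducible apply IntF.lam | with_reducible apply IntF.insert | with_reducible apply IntF.singleton | with_reducible apply IntF.union | with_reducible apply IntF.iimage | with_reducible apply IntF.ite | with_reducible apply IntF.the | with_reducible apply IntF.irec | with_reducible apply IntF.succ | with_reducible apply IntF.val | with_reducible apply IntF.mk | (with_reducible refine Int.comp ?_ ?_; assumption) | (with_reducible refine Int.comp₂ ?_ ?_ ?_; assumption) | (with_reducible refine Int.comp₃ ?_ ?_ ?_ ?_; assumption) | (with_reducible refine Int.comp₄ ?_ ?_ ?_ ?_ ?_; assumption) | (with_reducible refine IntF.comp ?_ ?_; assumption) | (with_reducible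 refine IntF.comp₂ ?_ ?_ ?_; assumption) | (with_reducible refine IntF.comp₃ ?_ ?_ ?_ ?_; assumption) | with_reducible apply IntF.pair))
  obtain ⟨z, hz⟩ := vsurj (sep M (fun q : Q => ∃ H : IPow M (IPow M Y), IFin H ∧
    (∀ U, U ∈ H → U ∈ G) ∧ ∀ w, ¬ q ∈ v w → ∃ U, U ∈ H ∧ w ∈ U)) (by
      intro x y hy hxy
      rw [mem_sep hi] at hy ⊢
      obtain ⟨H, h1, h2, h3⟩ := hy
      exact ⟨H, h1, h2, fun w hw => h3 w fun h => hw (vini w x y h hxy)⟩)
  have hz' : ∀ q, q ∈ v z ↔ ∃ H : IPow M (IPow M Y), IFin H ∧ (∀ U, U ∈ H → U ∈ G) ∧
      ∀ w, ¬ q ∈ v w → ∃ U, U ∈ H ∧ w ∈ U := fun q => by rw [hz, mem_sep hi]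
  obtain ⟨U0, hU0, hzU0⟩ := hcov z
  obtain ⟨p, q, h1, h2, h3⟩ := (mem_OpS hv).1 (hG U0 hU0) z hzU0
  have h4 : ∃ H : IPow M (IPow M Y), IFin H ∧ (∀ U, U ∈ H → U ∈ G) ∧
      ∀ w, ¬ (p ∈ v w ∨ ∀ x, ¬ x ∈ v z) → ∃ U, U ∈ H ∧ w ∈ U := by
    by_cases hE : ∀ x, ¬ x ∈ v z
    · exact ⟨∅, IFin.empty, fun U hU => absurd hU (by simp), fun w hw => absurd (Or.inr hE) hw⟩
    · obtain ⟨H, h5, h6, h7⟩ := (hz' p).1 (h1.resolve_right hE)
      exact ⟨H, h5, h6, fun w hw => h7 w fun h => hw (Or.inl h)⟩
  obtain ⟨H, h5, h6, h7⟩ := h4
  have h8 : ∀ w, (¬ q ∈ v w ∨ ∀ x, x ∈ v z) → ∃ U, U ∈ insert U0 H ∧ w ∈ U := by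
    intro w hw
    by_cases hp : p ∈ v w ∨ ∀ x, ¬ x ∈ v z
    · exact ⟨U0, mem_insert.2 (Or.inl rfl), h3 w hp hw⟩
    · obtain ⟨U, hU, hwU⟩ := h7 w hp
      exact ⟨U, mem_insert.2 (Or.inr hU), hwU⟩
  have h9 : ∀ U, U ∈ insert U0 H → U ∈ G := by
    intro U hU
    rcases mem_insert.1 hU with h | h
    · rw [h]
      exact hU0
    · exact h6 U h
  have h10 : q ∈ v z := (hz' q).2 ⟨insert U0 H, h5.insert U0, h9, fun w hw => h8 w (Or.inl hw)⟩
  have h11 : ∀ x, x ∈ v z := h2.resolve_left fun h => h h10
  exact ⟨insert U0 H, h5.insert U0, h9, fun w => h8 w (Or.inr h11)⟩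

theorem infinite {j : Q → Y} (hj : ∀ l q, q ∈ v (j l) ↔ lt q l ∨ q = l) {U : IPow M Y}
    (hU : U ∈ OpS v) (hne : ∃ z, z ∈ U) : ¬ FinP M (fun l => j l ∈ U) := by
  intro hfin
  obtain ⟨z, hz⟩ := hne
  obtain ⟨p, q, h1, h2, h3⟩ := (mem_OpS hv).1 hU z hz
  have hlt := D.int
  have hi : Int M (fun l : Q => (lt p l ∨ ∀ x, ¬ x ∈ v z) ∧ (lt l q ∨ ∀ x, x ∈ v z)) := by (repeat' (first | with_reducible exact IntF.id | with_reducible exact IntF.fst' | with_reducible exact IntF.snd' | with_reducible exact IntF.const _ | with_reducible exact Int.const _ | assumption | with_reducible apply Int.and | with_reducible apply Int.or | with_reducible apply Int.not | with_reducible apply Int.imp | with_reducible apply Int.iff | with_reducible apply Int.ne | with_reducible apply Int.eq | with_reducible apply Int.mem | with_reducible apply Int.subset | with_reducible apply Int.ltN | with_reducible apply Int.leN | with_reducible_and_instances apply Int.le | with_reducible_and_instances apply Int.lt | with_reducible apply Int.all | with_reducible apply Int.ex | with_reducible apply IntF.fst | with_reducible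 apply IntF.snd | with_reducible apply IntF.app | with_reducible apply IntF.inl | with_reducible apply IntF.inr | with_reducible_and_instances apply IntF.mul | with_reducible_and_instances apply IntF.inv | with_reducible_and_instances apply IntF.add | with_reducible_and_instances apply IntF.sub | with_reducible_and_instances apply IntF.neg | with_reducible_and_instances apply IntF.smul | with_reducible apply Int.fin | with_reducible apply IntF.sep | with_reducible apply IntF.lam | with_reducible apply IntF.insert | with_reducible apply IntF.singleton | with_reducible apply IntF.union | with_reducible apply IntF.iimage | with_reducible apply IntF.ite | with_reducible apply IntF.the | with_reducible apply IntF.irec | with_reducible apply IntF.succ | with_reducible apply IntF.val | with_reducible apply IntF.mk | (with_reducible refine Int.comp ?_ ?_; assumption) | (with_reducible refine Int.comp₂ ?_ ?_ ?_; assumption) | (with_reducible refine Int.comp₃ ?_ ?_ ?_ ?_; assumption) | (with_reducible refine Int.comp₄ ?_ ?_ ?_ ?_ ?_; assumption) | (with_reducible refine IntF.comp ?_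 ?_; assumption) | (with_reducible refine IntF.comp₂ ?_ ?_ ?_; assumption) | (with_reducible refine IntF.comp₃ ?_ ?_ ?_ ?_; assumption) | with_reducible apply IntF.pair))
  have h4 : FinP M (fun l : Q => (lt p l ∨ ∀ x, ¬ x ∈ v z) ∧ (lt l q ∨ ∀ x, x ∈ v z)) := by
    refine hfin.mono fun l hl => h3 (j l) ?_ ?_
    · rcases hl.1 with h | h
      · exact Or.inl ((hj l p).2 (Or.inl h))
      · exact Or.inr h
    · rcases hl.2 with h | h
      · refine Or.inl fun h' => ?_
        rcases (hj l q).1 h' with h5 | h5
        · exact D.irrefl _ (D.trans _ _ _ h h5)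
        · exact D.irrefl l (by rw [h5] at h; exact h)
      · exact Or.inr h
  have h5 : ∃ l : Q, (lt p l ∨ ∀ x, ¬ x ∈ v z) ∧ (lt l q ∨ ∀ x, x ∈ v z) := by
    by_cases hE : ∀ x, ¬ x ∈ v z
    · obtain ⟨l, hl⟩ := D.noMin q
      exact ⟨l, Or.inr hE, Or.inl hl⟩
    · by_cases hF : ∀ x, x ∈ v z
      · obtain ⟨l, hl⟩ := D.noMax p
        exact ⟨l, Or.inl hl, Or.inr hF⟩
      · have h6 := h1.resolve_right hE
        have h7 := h2.resolve_right hF
        have h8 : lt p q := by
          rcases D.total p q with h | h | h
          · exact h
          · exact absurd (h ▸ h6) h7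
          · exact absurd (vini z q p h6 h) h7
        obtain ⟨l, hl, hl'⟩ := D.dense p q h8
        exact ⟨l, Or.inl hl, Or.inl hl'⟩
  obtain ⟨l, ⟨hl, hl'⟩, h6⟩ := FinP.exists_min hi h4 hlt D.irrefl D.trans h5
  rcases hl with hl | hl
  · obtain ⟨l', h7, h8⟩ := D.dense p l hl
    exact h6 l' ⟨Or.inl h7, hl'.imp (fun h => D.trans _ _ _ h8 h) id⟩ h8
  · obtain ⟨l', h8⟩ := D.noMin l
    exact h6 l' ⟨Or.inr hl, hl'.imp (fun h => D.trans _ _ _ h8 h) id⟩ h8

theorem ich (vinj : Function.Injective v)
    (vsurj : ∀ C : IPow M Q, (∀ x y, y ∈ C → lt x y → x ∈ C) → ∃ z, v z = C) :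
    ICH M Y (OpS v) where
  univ := (mem_OpS hv).2 fun z _ => Nb.univ D z
  inter := by
    intro U V hU hV
    refine (mem_OpS hv).2 fun z hz => ?_
    rw [mem_inter] at hz
    exact Nb.inter D vini ((mem_OpS hv).1 hU z hz.1) ((mem_OpS hv).1 hV z hz.2)
  union := by
    intro G hG
    refine (mem_OpS hv).2 fun z hz => ?_
    obtain ⟨s, hs, hzs⟩ := mem_isUnion.1 hz
    exact ((mem_OpS hv).1 (hG s hs) z hzs).mono fun w hw => mem_isUnion.2 ⟨s, hs, hw⟩
  compact := compact D hv vini vsurj
  haus := by
    intro a b hab
    by_cases h1 : ∃ q, q ∈ v a ∧ ¬ q ∈ v b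
    · obtain ⟨q, hq, hq'⟩ := h1
      obtain ⟨U, hU, hU'⟩ := exists_R D hv q
      obtain ⟨V, hV, hV'⟩ := exists_L D hv q
      exact ⟨U, V, hU, hV, (hU' a).2 hq, (hV' b).2 hq', fun z h h' => (hV' z).1 h' ((hU' z).1 h)⟩
    · by_cases h2 : ∃ q, q ∈ v b ∧ ¬ q ∈ v a
      · obtain ⟨q, hq, hq'⟩ := h2
        obtain ⟨U, hU, hU'⟩ := exists_R D hv q
        obtain ⟨V, hV, hV'⟩ := exists_L D hv q
        exact ⟨V, U, hV, hU, (hV' a).2 hq', (hU' b).2 hq,
          fun z h h' => (hV' z).1 h ((hU' z).1 h')⟩
      · refine absurd (vinj (IPow.ext' fun x => ⟨fun h => ?_, fun h => ?_⟩)) hab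
        · exact by_contra fun h' => h1 ⟨x, h, h'⟩
        · exact by_contra fun h' => h2 ⟨x, h, h'⟩

end

theorem taskCuts : TaskCuts := by
  intro M _ _ Q _ lt D
  have hlt := D.int
  have hint : Int M (fun C : IPow M Q => ∀ x y, y ∈ C → lt x y → x ∈ C) := by (repeat' (first | with_reducible exact IntF.id | with_reducible exact IntF.fst' | with_reducible exact IntF.snd' | with_reducible exact IntF.const _ | with_reducible exact Int.const _ | assumption | with_reducible apply Int.and | with_reducible apply Int.or | with_reducible apply Int.not | with_reducible apply Int.imp | with_reducible apply Int.iff | with_reducible apply Int.ne | with_reducible apply Int.eq | with_reducible apply Int.mem | with_reducible apply Int.subset | with_reducible apply Int.ltN | with_reducible apply Int.leN | with_reducible_and_instances apply Int.le | with_reducible_and_instances apply Int.lt | with_reducible apply Int.all | with_reducible apply Int.ex | with_reducible apply IntF.fst | with_reducible apply IntF.snd | with_reducible apply IntF.app | with_reducible apply IntF.inl | with_reducible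 apply IntF.inr | with_reducible_and_instances apply IntF.mul | with_reducible_and_instances apply IntF.inv | with_reducible_and_instances apply IntF.add | with_reducible_and_instances apply IntF.sub | with_reducible_and_instances apply IntF.neg | with_reducible_and_instances apply IntF.smul | with_reducible apply Int.fin | with_reducible apply IntF.sep | with_reducible apply IntF.lam | with_reducible apply IntF.insert | with_reducible apply IntF.singleton | with_reducible apply IntF.union | with_reducible apply IntF.iimage | with_reducible apply IntF.ite | with_reducible apply IntF.the | with_reducible apply IntF.irec | with_reducible apply IntF.succ | with_reducible apply IntF.val | with_reducible apply IntF.mk | (with_reducible refine Int.comp ?_ ?_; assumption) | (with_reducible refine Int.comp₂ ?_ ?_ ?_; assumption) | (with_reducible refine Int.comp₃ ?_ ?_ ?_ ?_; assumption) | (with_reducible refine Int.comp₄ ?_ ?_ ?_ ?_ ?_; assumption) | (with_reducible refine IntF.comp ?_ ?_; assumption) | (with_reducible refine IntF.comp₂ ?_ ?_ ?_; assumption) | (with_reducible refine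 IntF.comp₃ ?_ ?_ ?_ ?_; assumption) | with_reducible apply IntF.pair))
  letI : Fact (Int M (fun C : IPow M Q => ∀ x y, y ∈ C → lt x y → x ∈ C)) := ⟨hint⟩
  have hl : ∀ l, Int M (fun q => lt q l ∨ q = l) := fun l => by (repeat' (first | with_reducible exact IntF.id | with_reducible exact IntF.fst' | with_reducible exact IntF.snd' | with_reducible exact IntF.const _ | with_reducible exact Int.const _ | assumption | with_reducible apply Int.and | with_reducible apply Int.or | with_reducible apply Int.not | with_reducible apply Int.imp | with_reducible apply Int.iff | with_reducible apply Int.ne | with_reducible apply Int.eq | with_reducible apply Int.mem | with_reducible apply Int.subset | with_reducible apply Int.ltN | with_reducible apply Int.leN | with_reducible_and_instances apply Int.le | with_reducible_and_instances apply Int.lt | with_reducible apply Int.all | with_reducible apply Int.ex | with_reducible apply IntF.fst | with_reducible apply IntF.snd | with_reducible apply IntF.app | with_reducible apply IntF.inl | with_reducible apply IntF.inr | with_reducible_and_instances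 apply IntF.mul | with_reducible_and_instances apply IntF.inv | with_reducible_and_instances apply IntF.add | with_reducible_and_instances apply IntF.sub | with_reducible_and_instances apply IntF.neg | with_reducible_and_instances apply IntF.smul | with_reducible apply Int.fin | with_reducible apply IntF.sep | with_reducible apply IntF.lam | with_reducible apply IntF.insert | with_reducible apply IntF.singleton | with_reducible apply IntF.union | with_reducible apply IntF.iimage | with_reducible apply IntF.ite | with_reducible apply IntF.the | with_reducible apply IntF.irec | with_reducible apply IntF.succ | with_reducible apply IntF.val | with_reducible apply IntF.mk | (with_reducible refine Int.comp ?_ ?_; assumption) | (with_reducible refine Int.comp₂ ?_ ?_ ?_; assumption) | (with_reducible refine Int.comp₃ ?_ ?_ ?_ ?_; assumption) | (with_reducible refine Int.comp₄ ?_ ?_ ?_ ?_ ?_; assumption) | (with_reducible refine IntF.comp ?_ ?_; assumption) | (with_reducible refine IntF.comp₂ ?_ ?_ ?_; assumption) | (with_reducible refine IntF.comp₃ ?_ ?_ ?_ ?_; assumption) | with_reducible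 apply IntF.pair))
  have hs : IntF M (fun l => sep M fun q => lt q l ∨ q = l) := by (repeat' (first | with_reducible exact IntF.id | with_reducible exact IntF.fst' | with_reducible exact IntF.snd' | with_reducible exact IntF.const _ | with_reducible exact Int.const _ | assumption | with_reducible apply Int.and | with_reducible apply Int.or | with_reducible apply Int.not | with_reducible apply Int.imp | with_reducible apply Int.iff | with_reducible apply Int.ne | with_reducible apply Int.eq | with_reducible apply Int.mem | with_reducible apply Int.subset | with_reducible apply Int.ltN | with_reducible apply Int.leN | with_reducible_and_instances apply Int.le | with_reducible_and_instances apply Int.lt | with_reducible apply Int.all | with_reducible apply Int.ex | with_reducible apply IntF.fst | with_reducible apply IntF.snd | with_reducible apply IntF.app | with_reducible apply IntF.inl | with_reducible apply IntF.inr | with_reducible_and_instances apply IntF.mul | with_reducible_and_instances apply IntF.inv | with_reducible_and_instances apply IntF.add | with_reducible_and_instances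 apply IntF.sub | with_reducible_and_instances apply IntF.neg | with_reducible_and_instances apply IntF.smul | with_reducible apply Int.fin | with_reducible apply IntF.sep | with_reducible apply IntF.lam | with_reducible apply IntF.insert | with_reducible apply IntF.singleton | with_reducible apply IntF.union | with_reducible apply IntF.iimage | with_reducible apply IntF.ite | with_reducible apply IntF.the | with_reducible apply IntF.irec | with_reducible apply IntF.succ | with_reducible apply IntF.val | with_reducible apply IntF.mk | (with_reducible refine Int.comp ?_ ?_; assumption) | (with_reducible refine Int.comp₂ ?_ ?_ ?_; assumption) | (with_reducible refine Int.comp₃ ?_ ?_ ?_ ?_; assumption) | (with_reducible refine Int.comp₄ ?_ ?_ ?_ ?_ ?_; assumption) | (with_reducible refine IntF.comp ?_ ?_; assumption) | (with_reducible refine IntF.comp₂ ?_ ?_ ?_; assumption) | (with_reducible refine IntF.comp₃ ?_ ?_ ?_ ?_; assumption) | with_reducible apply IntF.pair))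
  have hv : IntF M (fun z : {C : IPow M Q // ∀ x y, y ∈ C → lt x y → x ∈ C} => z.1) :=
    IntF.val'
  have hini : ∀ l x y, y ∈ (sep M fun q => lt q l ∨ q = l) → lt x y →
      x ∈ (sep M fun q => lt q l ∨ q = l) := by
    intro l x y hy hxy
    rw [mem_sep (hl l)] at hy ⊢
    rcases hy with h | h
    · exact Or.inl (D.trans _ _ _ hxy h)
    · rw [h] at hxy
      exact Or.inl hxy
  have vini : ∀ (z : {C : IPow M Q // ∀ x y, y ∈ C → lt x y → x ∈ C}) x y, y ∈ z.1 → lt x y →
      x ∈ z.1 := fun z => z.2
  have hj : ∀ l q, q ∈ (sep M fun q => lt q l ∨ q = l) ↔ lt q l ∨ q = l :=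
    fun l q => mem_sep (hl l)
  refine ⟨{C : IPow M Q // ∀ x y, y ∈ C → lt x y → x ∈ C}, inferInstance,
    OpS (fun z : {C : IPow M Q // ∀ x y, y ∈ C → lt x y → x ∈ C} => z.1),
    fun l => ⟨sep M fun q => lt q l ∨ q = l, hini l⟩, IntF.mk hs, ?_, ?_, ?_⟩
  · intro a b hab
    have h1 : (sep M fun q => lt q a ∨ q = a) = (sep M fun q => lt q b ∨ q = b) :=
      congrArg Subtype.val hab
    have h2 := (hj b a).1 (h1 ▸ (hj a a).2 (Or.inr rfl))
    have h3 := (hj a b).1 (h1 ▸ (hj b b).2 (Or.inr rfl))
    rcases h2 with h2 | h2
    · rcases h3 with h3 | h3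
      · exact absurd (D.trans _ _ _ h2 h3) (D.irrefl _)
      · exact h3.symm
    · exact h2
  · exact ich D hv vini Subtype.val_injective fun C hC => ⟨⟨C, hC⟩, rfl⟩
  · intro U hU hne
    exact infinite D hv vini hj hU hne

end Pool.Agent.H396R4.Inh
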